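import Mathlib

/-!
# Contraction containment among labeled trees: definitions

Problem MP_0cb3c0_co.  Trees on `[m]` are trees on `Fin m` (the label `i` of the problem is the
element `i - 1` of `Fin m`).
-/

set_option autoImplicit false

noncomputable section

namespace Pool.Agent.H38.WT

/-- `(f, r)` is a display of `T` in `U`: the blocks (fibers) are the sets `f = i`, each connected
in `U`; `r i` is the survivor of the block `i`, and `r` is increasing; two blocks are joined by an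
edge of `U` iff their labels are adjacent in `T`. -/
structure IsDisplay {n m : ℕ} (T : SimpleGraph (Fin n)) (U : SimpleGraph (Fin m))
    (f : Fin m → Fin n) (r : Fin n → Fin m) : Prop where
  mono : StrictMono r
  sect : ∀ i, f (r i) = i
  conn : ∀ i, (U.induce {v | f v = i}).Connected
  adj : ∀ i j, i ≠ j → (T.Adj i j ↔ ∃ u v, f u = i ∧ f v = j ∧ U.Adj u v)

/-- The number `c_T(U)` of displays of `T` in `U`. -/
def cD {n m : ℕ} (T : SimpleGraph (Fin n)) (U : SimpleGraph (Fin m)) : ℕ :=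
  Nat.card {p : (Fin m → Fin n) × (Fin n → Fin m) // IsDisplay T U p.1 p.2}

open Classical in
/-- The labeled trees on `m` vertices. -/
def trees (m : ℕ) : Finset (SimpleGraph (Fin m)) := Finset.univ.filter (fun U => U.IsTree)

open Classical in
/-- The support count `μ_T(m)`. -/
def mu {n : ℕ} (T : SimpleGraph (Fin n)) (m : ℕ) : ℕ :=
  ((trees m).filter (fun U => 0 < cD T U)).card

/-- The second collision moment `C₂(T; m)`. -/
def C2 {n : ℕ} (T : SimpleGraph (Fin n)) (m : ℕ) : ℕ := ∑ U ∈ trees m, (cD T U).choose 2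

/-- The path `0 - 1 - 2 - ⋯ - (n-1)`. -/
def pI (n : ℕ) : SimpleGraph (Fin n) where
  Adj i j := (i : ℕ) + 1 = j ∨ (j : ℕ) + 1 = i
  symm := ⟨fun _ _ h => h.symm⟩
  loopless := ⟨fun i h => by rcases h with h | h <;> omega⟩

/-- The path `1 - 0 - 2 - 3 - ⋯ - (n-1)`. -/
def pJ (n : ℕ) : SimpleGraph (Fin n) where
  Adj i j := ((i : ℕ) + 1 = j ∧ (i : ℕ) ≠ 1) ∨ ((j : ℕ) + 1 = i ∧ (j : ℕ) ≠ 1) ∨
    ((i : ℕ) = 0 ∧ (j : ℕ) = 2) ∨ ((i : ℕ) = 2 ∧ (j : ℕ) = 0)
  symm := ⟨fun _ _ h => by tauto⟩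
  loopless := ⟨fun i h => by rcases h with h | h | h | h <;> omega⟩

/-! ### Cuts -/

/-- `G` is one of the two sides of an edge of the tree `U`. -/
def IsCut {m : ℕ} (U : SimpleGraph (Fin m)) (G : Set (Fin m)) : Prop :=
  G.Nonempty ∧ Gᶜ.Nonempty ∧ (U.induce G).Preconnected ∧ (U.induce Gᶜ).Preconnected

/-- The set of cuts. -/
def cuts {m : ℕ} (U : SimpleGraph (Fin m)) : Set (Set (Fin m)) := {G | IsCut U G}

/-- A family of nonempty proper subsets, any two of which are nested, disjoint or cover. -/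
structure CF {m : ℕ} (F : Set (Set (Fin m))) : Prop where
  ne : ∀ G ∈ F, G.Nonempty
  nu : ∀ G ∈ F, G ≠ Set.univ
  cross : ∀ G ∈ F, ∀ H ∈ F, G ⊆ H ∨ H ⊆ G ∨ Disjoint G H ∨ G ∪ H = Set.univ

/-- The image of a family under a permutation. -/
def img {m : ℕ} (σ : Equiv.Perm (Fin m)) (F : Set (Set (Fin m))) : Set (Set (Fin m)) :=
  {H | ∃ G ∈ F, H = σ '' G}

/-- Behind the cut `G` there is an increasing path of `ℓ` blocks, all of whose survivors are
larger than `k`. -/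
def Good {m : ℕ} (ℓ : ℕ) (F : Set (Set (Fin m))) (k : Fin m) (G : Set (Fin m)) : Prop :=
  ∃ (g : ℕ → Set (Fin m)) (s : ℕ → Fin m), g 0 = G ∧ k < s 0 ∧
    (∀ i, i < ℓ → g i ∈ F ∧ s i ∉ g i) ∧
    (∀ i, i + 1 < ℓ → g i ⊆ g (i + 1) ∧ s i ∈ g (i + 1) ∧ s i < s (i + 1))

/-- Containment of the path `0 - 1 - 2 - ⋯`, in terms of cuts. -/
def Con12 {m : ℕ} (ℓ : ℕ) (F : Set (Set (Fin m))) : Prop :=
  ∃ G' ∈ F, ∃ G ∈ F, G' ⊆ G ∧ ∃ x ∈ G', ∃ y ∈ G, y ∉ G' ∧ x < y ∧ Good ℓ F y G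

/-- Containment of the path `1 - 0 - 2 - ⋯`, in terms of cuts. -/
def Con21 {m : ℕ} (ℓ : ℕ) (F : Set (Set (Fin m))) : Prop :=
  ∃ G' ∈ F, ∃ G ∈ F, G' ⊆ G ∧ ∃ x ∈ G', ∃ y ∈ G, y ∉ G' ∧ y < x ∧ Good ℓ F x G

/-- The mixed condition: a pair of labels whose larger element is `< j` is forbidden as in
`Con12`, the other pairs as in `Con21`. -/
def PJ {m : ℕ} (ℓ : ℕ) (F : Set (Set (Fin m))) (j : ℕ) : Prop :=
  ∀ G' ∈ F, ∀ G ∈ F, G' ⊆ G → ∀ x ∈ G', ∀ y ∈ G, y ∉ G' →
    (x < y → (y : ℕ) < j → ¬ Good ℓ F y G) ∧ (y < x → j ≤ (x : ℕ) → ¬ Good ℓ F x G)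

/-- `K` is the largest good cut with label `j`. -/
def IsTop {m : ℕ} (ℓ : ℕ) (F : Set (Set (Fin m))) (j : Fin m) (K : Set (Fin m)) : Prop :=
  K ∈ F ∧ j ∈ K ∧ Good ℓ F j K ∧ ∀ G ∈ F, j ∈ G → Good ℓ F j G → G ⊆ K

/-- The properties of the cycle `σ` on `C`, `j` the largest element of `C`: its inverse moves `j`
to the smallest element of `C` and is increasing on the rest of `C`. -/
structure IsCyc {m : ℕ} (C : Set (Fin m)) (j : Fin m) (σ : Equiv.Perm (Fin m)) : Prop where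
  fix : ∀ x, x ∉ C → σ x = x
  low : ∀ x ∈ C, σ.symm j ≤ x
  mono : ∀ x ∈ C, ∀ y ∈ C, x < y → y < j → σ.symm x < σ.symm y

open Classical in
/-- A permutation with `IsCyc C j` (a function of `C` and `j` only). -/
def cycC {m : ℕ} (C : Set (Fin m)) (j : Fin m) : Equiv.Perm (Fin m) :=
  if h : ∃ σ, IsCyc C j σ then Classical.choose h else 1

open Classical in
/-- The largest good cut with label `j`, and `{j}` if there is none. -/
def topK {m : ℕ} (ℓ : ℕ) (F : Set (Set (Fin m))) (j : Fin m) : Set (Fin m) :=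
  if h : ∃ K, IsTop ℓ F j K then Classical.choose h else {j}

/-- The permutation applied at `j`. -/
def cyc {m : ℕ} (ℓ : ℕ) (F : Set (Set (Fin m))) (j : Fin m) : Equiv.Perm (Fin m) :=
  cycC (topK ℓ F j ∩ {x | x ≤ j}) j

/-- The tree `U` with the label `i` replaced by `σ i`. -/
def rel {m : ℕ} (σ : Equiv.Perm (Fin m)) (U : SimpleGraph (Fin m)) : SimpleGraph (Fin m) :=
  U.comap σ.symm

/-- The exchange of the labels `0` and `1`. -/
def sw (n : ℕ) : Equiv.Perm (Fin n) :=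
  if h : 2 ≤ n then Equiv.swap ⟨0, by omega⟩ ⟨1, by omega⟩ else 1

/-! ### Paths -/

/-- `T` is the path with the labels `w 0, w 1, …` (in this order). -/
def PathWord {n : ℕ} (T : SimpleGraph (Fin n)) (w : Equiv.Perm (Fin n)) : Prop :=
  ∀ a b, T.Adj (w a) (w b) ↔ ((a : ℕ) + 1 = b ∨ (b : ℕ) + 1 = a)

/-- A display of the path with word `w`, written as a chain of cuts: `g a` is the union of the
first `a` blocks, `r` the survivors. -/
structure Chain {n m : ℕ} (U : SimpleGraph (Fin m)) (w : Equiv.Perm (Fin n))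
    (g : ℕ → Set (Fin m)) (r : Fin n → Fin m) : Prop where
  mono : StrictMono r
  zero : g 0 = ∅
  last : g n = Set.univ
  sub : ∀ a, a < n → g a ⊆ g (a + 1)
  cut : ∀ a, 0 < a → a < n → g a ∈ cuts U
  mem : ∀ a : Fin n, r (w a) ∈ g ((a : ℕ) + 1)
  nmem : ∀ a : Fin n, r (w a) ∉ g (a : ℕ)

/-! ### Displays with one extra vertex -/

/-- The display of `T` in a graph on `Fin (n+1)` in which the vertex `x` is contracted into the
vertex `x.succAbove i`. -/
def Disp1 {n : ℕ} (T : SimpleGraph (Fin n)) (U : SimpleGraph (Fin (n + 1))) (x : Fin (n + 1))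
    (i : Fin n) : Prop :=
  U.Adj x (x.succAbove i) ∧ ∀ a b, a ≠ b → (T.Adj a b ↔ (U.Adj (x.succAbove a) (x.succAbove b) ∨
    (a = i ∧ U.Adj x (x.succAbove b)) ∨ (b = i ∧ U.Adj x (x.succAbove a))))

/-- The number of triples `(U, i, i')`, `i ≠ i'`, with two displays that contract `x`. -/
def Sm {n : ℕ} (T : SimpleGraph (Fin n)) (x : Fin (n + 1)) : ℕ :=
  Nat.card {p : SimpleGraph (Fin (n + 1)) × Fin n × Fin n //
    p.1.IsTree ∧ p.2.1 ≠ p.2.2 ∧ Disp1 T p.1 x p.2.1 ∧ Disp1 T p.1 x p.2.2}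

/-- The number of triples `(U, i, i')` with a display that contracts `x` and one that
contracts `x'`. -/
def Pr {n : ℕ} (T : SimpleGraph (Fin n)) (x x' : Fin (n + 1)) : ℕ :=
  Nat.card {p : SimpleGraph (Fin (n + 1)) × Fin n × Fin n //
    p.1.IsTree ∧ Disp1 T p.1 x p.2.1 ∧ Disp1 T p.1 x' p.2.2}

end Pool.Agent.H38.WT
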