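import Pool.Agent.H38.WT.Defs

/-!
# Targets of the board `wt_modules` (problem MP_0cb3c0_co)
-/

set_option autoImplicit false

noncomputable section

namespace Pool.Agent.H38.WT

/-! ### A. Families of cuts (no trees) -/

/-- The cycle exists. -/
def T_CYC : Prop := ∀ (m : ℕ) (C : Set (Fin m)) (j : Fin m), j ∈ C → (∀ x ∈ C, x ≤ j) →
  ∃ σ, IsCyc C j σ

/-- Monotonicity of `Good` in the cut. -/
def T_GMN : Prop := ∀ (m ℓ : ℕ) (F : Set (Set (Fin m))) (k k' : Fin m) (G H : Set (Fin m)),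
  0 < ℓ → G ∈ F → G ⊆ H → k ≤ k' → Good ℓ F k' H → Good ℓ F k G

/-- Two good cuts do not cover. -/
def T_GUN : Prop := ∀ (m ℓ : ℕ) (F : Set (Set (Fin m))) (k k' : Fin m) (G H : Set (Fin m)),
  m < 2 * ℓ → Good ℓ F k G → Good ℓ F k' H → G ∪ H ≠ Set.univ

/-- The image of a family. -/
def T_CFI : Prop := ∀ (m : ℕ) (F : Set (Set (Fin m))) (σ : Equiv.Perm (Fin m)), CF F →
  CF (img σ F) ∧ img σ.symm (img σ F) = F

/-- Counting lemma: a chain that leaves `G` and ends inside `K`, and a chain that leaves `K`,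
have at most two survivors in common. -/
def T_CNL : Prop := ∀ (m ℓ : ℕ) (F : Set (Set (Fin m))) (g h : ℕ → Set (Fin m))
  (s t : ℕ → Fin m) (p : ℕ), CF F → h 0 ∈ F →
  (∀ i, i < ℓ → g i ∈ F ∧ s i ∉ g i) →
  (∀ i, i + 1 < ℓ → g i ⊆ g (i + 1) ∧ s i ∈ g (i + 1) ∧ s i < s (i + 1)) →
  (∀ i, i < ℓ → h i ∈ F ∧ t i ∉ h i) →
  (∀ i, i + 1 < ℓ → h i ⊆ h (i + 1) ∧ t i ∈ h (i + 1) ∧ t i < t (i + 1)) →
  p < ℓ → (∀ i, i < p → Disjoint (g i) (h 0)) → g p ∪ h 0 = Set.univ →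
  2 * ℓ ≤ m + 2

/-- `Good` is preserved when labels `≤ j` are moved inside a cut that is good for `j`. -/
def T_GI : Prop := ∀ (m ℓ : ℕ) (F : Set (Set (Fin m))) (j k : Fin m) (K G : Set (Fin m))
  (σ : Equiv.Perm (Fin m)), m + 3 ≤ 2 * ℓ → CF F → K ∈ F → Good ℓ F j K →
  (∀ x, x ∉ K ∩ {x | x ≤ j} → σ x = x) → G ∈ F → Good ℓ F k G →
  Good ℓ (img σ F) k (σ '' G)

/-- The largest good cut with label `j`. -/
def T_TOP : Prop := ∀ (m ℓ : ℕ) (F : Set (Set (Fin m))) (j : Fin m), m + 3 ≤ 2 * ℓ → CF F →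
  (∃ G ∈ F, j ∈ G ∧ Good ℓ F j G) → ∃ K, IsTop ℓ F j K

/-- The largest good cut with label `j` is the same after the move. -/
def T_TPI : Prop := ∀ (m ℓ : ℕ) (F : Set (Set (Fin m))) (j : Fin m) (K : Set (Fin m))
  (σ : Equiv.Perm (Fin m)), m + 3 ≤ 2 * ℓ → CF F → IsTop ℓ F j K →
  (∀ x, x ∉ K ∩ {x | x ≤ j} → σ x = x) → IsTop ℓ (img σ F) j K

/-- No good cut with label `j`: nothing to do. -/
def T_STN : Prop := ∀ (m ℓ : ℕ) (F : Set (Set (Fin m))) (j : Fin m),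
  (¬ ∃ G ∈ F, j ∈ G ∧ Good ℓ F j G) → (PJ ℓ F ((j : ℕ) + 1) ↔ PJ ℓ F (j : ℕ))

/-- The pairs inside `K`, before the move. -/
def T_INA : Prop := ∀ (m ℓ : ℕ) (F : Set (Set (Fin m))) (j : Fin m) (K : Set (Fin m)),
  m + 3 ≤ 2 * ℓ → CF F → IsTop ℓ F j K →
  ((∀ G' ∈ F, ∀ G ∈ F, G' ⊆ G → ∀ x ∈ G', ∀ y ∈ G, y ∉ G' → x ∈ K → y ∈ K → x < y →
      y ≤ j → ¬ Good ℓ F y G) ↔
    ∀ G' ∈ F, G' ⊆ K → ∀ x ∈ G', ∀ y ∈ K, x < y → y ≤ j → y ∈ G')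

/-- The pairs inside `K`, after the move. -/
def T_INB : Prop := ∀ (m ℓ : ℕ) (F : Set (Set (Fin m))) (j : Fin m) (K : Set (Fin m)),
  m + 3 ≤ 2 * ℓ → CF F → IsTop ℓ F j K →
  (((∀ G' ∈ F, ∀ G ∈ F, G' ⊆ G → ∀ x ∈ G', ∀ y ∈ G, y ∉ G' → x ∈ K → y ∈ K → x < y →
      y < j → ¬ Good ℓ F y G) ∧
    (∀ G' ∈ F, ∀ G ∈ F, G' ⊆ G → ∀ y ∈ G, y ∉ G' → j ∈ G' → y ∈ K → y < j →
      ¬ Good ℓ F j G)) ↔
    ∀ G' ∈ F, G' ⊆ K → (∀ x ∈ G', ∀ y ∈ K, x < y → y < j → y ∈ G') ∧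
      (j ∈ G' → ∀ y ∈ K, y < j → y ∈ G'))

/-- The cycle exchanges the two conditions. -/
def T_EXC : Prop := ∀ (m : ℕ) (F : Set (Set (Fin m))) (j : Fin m) (K : Set (Fin m))
  (σ : Equiv.Perm (Fin m)), j ∈ K → IsCyc (K ∩ {x | x ≤ j}) j σ →
  ((∀ G' ∈ F, G' ⊆ K → ∀ x ∈ G', ∀ y ∈ K, x < y → y ≤ j → y ∈ G') ↔
    ∀ G' ∈ img σ F, G' ⊆ K → (∀ x ∈ G', ∀ y ∈ K, x < y → y < j → y ∈ G') ∧
      (j ∈ G' → ∀ y ∈ K, y < j → y ∈ G'))

/-- The step: the move at `j` exchanges `PJ (j+1)` and `PJ j`. -/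
def T_STP : Prop := ∀ (m ℓ : ℕ) (F : Set (Set (Fin m))) (j : Fin m) (K : Set (Fin m))
  (σ : Equiv.Perm (Fin m)), m + 3 ≤ 2 * ℓ → CF F → IsTop ℓ F j K →
  IsCyc (K ∩ {x | x ≤ j}) j σ → (PJ ℓ F ((j : ℕ) + 1) ↔ PJ ℓ (img σ F) (j : ℕ))

/-- The permutation at `j` is the same before and after the move, and the move works. -/
def T_ONE : Prop := ∀ (m ℓ : ℕ) (F : Set (Set (Fin m))) (j : Fin m), m + 3 ≤ 2 * ℓ → CF F →
  cyc ℓ (img (cyc ℓ F j) F) j = cyc ℓ F j ∧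
  cyc ℓ (img (cyc ℓ F j).symm F) j = cyc ℓ F j ∧
  (PJ ℓ F ((j : ℕ) + 1) ↔ PJ ℓ (img (cyc ℓ F j) F) (j : ℕ))

/-! ### B. Cuts of trees -/

/-- The cuts of a tree. -/
def T_CUT : Prop := ∀ (m : ℕ) (U : SimpleGraph (Fin m)), U.IsTree → CF (cuts U)

/-- Relabeling. -/
def T_REL : Prop := ∀ (m : ℕ) (U : SimpleGraph (Fin m)) (σ : Equiv.Perm (Fin m)),
  ((rel σ U).IsTree ↔ U.IsTree) ∧ cuts (rel σ U) = img σ (cuts U) ∧ rel σ.symm (rel σ U) = U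

/-- In a tree the intersection of two connected sets is connected. -/
def T_CON : Prop := ∀ (m : ℕ) (U : SimpleGraph (Fin m)) (A B : Set (Fin m)), U.IsTree →
  (U.induce A).Preconnected → (U.induce B).Preconnected → (U.induce (A ∩ B)).Preconnected

/-- Display to chain. -/
def T_DWF : Prop := ∀ (n m : ℕ) (T : SimpleGraph (Fin n)) (U : SimpleGraph (Fin m))
  (w : Equiv.Perm (Fin n)) (f : Fin m → Fin n) (r : Fin n → Fin m), PathWord T w →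
  IsDisplay T U f r → ∃ g, Chain U w g r

/-- Chain to display. -/
def T_DWB : Prop := ∀ (n m : ℕ) (T : SimpleGraph (Fin n)) (U : SimpleGraph (Fin m))
  (w : Equiv.Perm (Fin n)) (g : ℕ → Set (Fin m)) (r : Fin n → Fin m), PathWord T w →
  U.IsTree → Chain U w g r → ∃ f, IsDisplay T U f r

/-- Containment of `pI n` in terms of cuts. -/
def T_D12 : Prop := ∀ (n m : ℕ) (U : SimpleGraph (Fin m)), 3 ≤ n → U.IsTree →
  (0 < cD (pI n) U ↔ Con12 (n - 2) (cuts U))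

/-- Containment of `pJ n` in terms of cuts. -/
def T_D21 : Prop := ∀ (n m : ℕ) (U : SimpleGraph (Fin m)), 3 ≤ n → U.IsTree →
  (0 < cD (pJ n) U ↔ Con21 (n - 2) (cuts U))

open Classical in
/-- One step of the counting. -/
def T_CNT : Prop := ∀ (m ℓ j : ℕ), m + 3 ≤ 2 * ℓ → j < m →
  ((trees m).filter (fun U => PJ ℓ (cuts U) (j + 1))).card =
    ((trees m).filter (fun U => PJ ℓ (cuts U) j)).card

/-- The equality of the support counts. -/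
def T_MU : Prop := ∀ (n m : ℕ), 3 ≤ n → m + 7 ≤ 2 * n → mu (pI n) m = mu (pJ n) m

/-! ### C. The second collision moment at `m = n + 1` -/

/-- Displays in a graph with one more vertex. -/
def T_SA : Prop := ∀ (n : ℕ) (T : SimpleGraph (Fin n)) (U : SimpleGraph (Fin (n + 1))),
  cD T U = Nat.card {p : Fin (n + 1) × Fin n // Disp1 T U p.1 p.2}

/-- `C₂` as a sum over pairs of contracted vertices. -/
def T_SB : Prop := ∀ (n : ℕ) (T : SimpleGraph (Fin n)),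
  2 * C2 T (n + 1) = ∑ x, Sm T x + 2 * ∑ x, ∑ x' ∈ Finset.univ.filter (fun x' => x < x'), Pr T x x'

/-- Relabeling of displays. -/
def T_SC : Prop := ∀ (n : ℕ) (T : SimpleGraph (Fin n)) (U : SimpleGraph (Fin (n + 1)))
  (x : Fin (n + 1)) (i : Fin n) (τ : Equiv.Perm (Fin n)) (σ : Equiv.Perm (Fin (n + 1))),
  σ x = x → (∀ a, σ (x.succAbove a) = x.succAbove (τ a)) →
  (Disp1 (rel τ T) (rel σ U) x (τ i) ↔ Disp1 T U x i)

/-- Pairs of displays that contract the same vertex. -/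
def T_SD : Prop := ∀ (n : ℕ) (T : SimpleGraph (Fin n)) (τ : Equiv.Perm (Fin n))
  (x : Fin (n + 1)), Sm (rel τ T) x = Sm T x

/-- Pairs of displays that contract labels `≥ 2`. -/
def T_SE : Prop := ∀ (n : ℕ), 3 ≤ n → ∀ (x x' : Fin (n + 1)), 2 ≤ (x : ℕ) → 2 ≤ (x' : ℕ) →
  Pr (pI n) x x' = Pr (pJ n) x x'

/-- The two paths: trees, words, and the relabeling. -/
def T_PT : Prop := ∀ (n : ℕ), 3 ≤ n → (pI n).IsTree ∧ (pJ n).IsTree ∧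
  PathWord (pI n) 1 ∧ PathWord (pJ n) (sw n) ∧ pJ n = rel (sw n) (pI n)

/-- Many coincidences for the increasing path. -/
def T_SF : Prop := ∀ (n : ℕ), 3 ≤ n → ∀ (x x' : Fin (n + 1)), (x : ℕ) = 0 → x < x' →
  1 ≤ Pr (pI n) x x'

/-- No coincidences for the other path. -/
def T_SG : Prop := ∀ (n : ℕ), 4 ≤ n → ∀ (x x' : Fin (n + 1)), (x : ℕ) ≤ 1 → 3 ≤ (x' : ℕ) →
  Pr (pJ n) x x' = 0

/-- The place of the contraction, for the other path. -/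
def T_SH : Prop := ∀ (n : ℕ), 4 ≤ n → ∀ (U : SimpleGraph (Fin (n + 1))) (x x' : Fin (n + 1))
  (i i' : Fin n), (x : ℕ) ≤ 1 → x < x' → (x' : ℕ) ≤ 2 → Disp1 (pJ n) U x i →
  Disp1 (pJ n) U x' i' → (i : ℕ) ≤ 2 ∧ (i' : ℕ) ≤ 2

/-- The number of trees with a given contraction. -/
def T_SI : Prop := ∀ (n : ℕ), 3 ≤ n → ∀ (x : Fin (n + 1)) (i : Fin n),
  Nat.card {U : SimpleGraph (Fin (n + 1)) // U.IsTree ∧ Disp1 (pJ n) U x i} ≤ 4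

/-- Few coincidences for the other path. -/
def T_SJ : Prop := ∀ (n : ℕ), 4 ≤ n → ∀ (x x' : Fin (n + 1)), (x : ℕ) ≤ 1 → x < x' →
  (x' : ℕ) ≤ 2 → Pr (pJ n) x x' ≤ 36

/-- The difference of the second moments. -/
def T_SK : Prop := ∀ (n : ℕ), 4 ≤ n → C2 (pJ n) (n + 1) + n ≤ C2 (pI n) (n + 1) + 108

/-! ### D. The theorem -/

/-- The final statement. -/
def T_FIN : Prop :=
  (∀ n : ℕ, 4 ≤ n → (pI n).IsTree ∧ (pJ n).IsTree ∧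
    (∀ m : ℕ, m + 7 ≤ 2 * n → mu (pI n) m = mu (pJ n) m) ∧
    C2 (pJ n) (n + 1) + n ≤ C2 (pI n) (n + 1) + 108) ∧
  (∀ K : ℕ, ∃ n : ℕ, ∃ T₁ T₂ : SimpleGraph (Fin n), T₁.IsTree ∧ T₂.IsTree ∧
    (∀ m : ℕ, m ≤ n + K → mu T₁ m = mu T₂ m) ∧ C2 T₁ (n + 1) ≠ C2 T₂ (n + 1))

end Pool.Agent.H38.WT
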